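import Pool.Agent.N110.CC.RStm
import Pool.Agent.N110.NV.Cl
import Pool.Agent.R887.Nef

/-!
Project CC (helper110): the class of a pseudo-effective divisor is in the closed effective cone.
-/

set_option autoImplicit false

open FF Pool.Agent.W602.GT Pool.Agent.Y172 Pool.Agent.R887
open Pool.Agent.N110 Pool.Agent.N110.NV Pool.Agent.N110.CC

namespace Pool.Agent.N618.CC

theorem leafPSCL : S_PSCL := by
  intro K _ _ N ρ y hy c hc L hL hP
  obtain ⟨i, hi⟩ := hy.ne
  obtain ⟨H, hH, hH'⟩ := exists_hyp hy hi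
  have hL0 : Fin0 y L := hL
  have hH0 : Fin0 y H := hH.2
  have key : ∀ q : ℕ, 1 ≤ q →
      toR (cls y c L) + ((1 / (q : ℚ) : ℚ) : ℝ) • toR (cls y c H) ∈ effSet y c := by
    intro q hq
    obtain ⟨m, hm, f, hf, h⟩ := hP i hi q hq
    have hf0 : Fin0 y (fun P => (P.ord f : ℚ)) := by
      refine (finite_ord hy hf).subset ?_
      rintro P ⟨h1, h2⟩
      refine ⟨h1, ?_⟩
      intro h3
      apply h2
      change ((P.ord f : ℤ) : ℚ) = 0
      rw [h3]
      rfl
    have hqL : Fin0 y (fun P => (q : ℚ) * L P) := hL0.smul q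
    have hqLH : Fin0 y (fun P => (q : ℚ) * L P + H P) := hqL.add hH0
    have hm0 : Fin0 y (fun P => (m : ℚ) * ((q : ℚ) * L P + H P)) := hqLH.smul m
    have hD : Effective y (fun P => (P.ord f : ℚ) + (m : ℚ) * ((q : ℚ) * L P + H P)) := by
      refine ⟨fun P hPp => ?_, hf0.add hm0⟩
      obtain ⟨l, hl⟩ := exists_centred hy P
      have h1 := h P l hPp hl
      rw [← hH' P l hPp hl] at h1
      exact h1
    have hcls : cls y c (fun P => (P.ord f : ℚ) + (m : ℚ) * ((q : ℚ) * L P + H P)) =
        (m : ℚ) • ((q : ℚ) • cls y c L + cls y c H) := by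
      rw [cls_add hf0 hm0, hc f hf, zero_add, cls_smul (fun P => (q : ℚ) * L P + H P),
        cls_add hqL hH0, cls_smul L]
    have hmq : (0 : ℚ) ≤ 1 / ((m : ℚ) * q) := by positivity
    have h2 := eff_smul (eff_mem (c := c) hD) hmq
    have hm' : (m : ℚ) ≠ 0 := by
      have : m ≠ 0 := by omega
      exact_mod_cast this
    have hq' : (q : ℚ) ≠ 0 := by
      have : q ≠ 0 := by omega
      exact_mod_cast this
    have h3 : (1 / ((m : ℚ) * q)) • ((m : ℚ) • ((q : ℚ) • cls y c L + cls y c H)) =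
        cls y c L + (1 / (q : ℚ)) • cls y c H := by
      funext j
      simp only [Pi.smul_apply, Pi.add_apply, smul_eq_mul]
      field_simp
    rw [hcls, ← toR_smul, h3, toR_add, toR_smul] at h2
    exact h2
  have hlim : Filter.Tendsto (fun q : ℕ => toR (cls y c L) +
      ((1 / ((q + 1 : ℕ) : ℚ) : ℚ) : ℝ) • toR (cls y c H)) Filter.atTop
      (nhds (toR (cls y c L) + (0 : ℝ) • toR (cls y c H))) := by
    refine tendsto_const_nhds.add (Filter.Tendsto.smul_const ?_ _)
    have h4 := tendsto_one_div_add_atTop_nhds_zero_nat (𝕜 := ℝ)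
    refine h4.congr fun q => ?_
    push_cast
    rfl
  rw [zero_smul, add_zero] at hlim
  exact mem_closure_of_tendsto hlim (Filter.Eventually.of_forall fun q => key (q + 1) (by omega))

end Pool.Agent.N618.CC

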